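import Mathlib

namespace Pool.Agent.Results.MP_a5410e_nt.Q1

open Polynomial

set_option linter.unusedSectionVars false

/-- `x` lies in the algebraic closure of the prime field `𝔽_p` inside `K`. -/
def InFpBar (p : ℕ) (K : Type) [Field K] [CharP K p] (x : K) : Prop :=
  letI := ZMod.algebra K p
  IsAlgebraic (ZMod p) x

/-- `g(x+y) = g(x) + g(y)` as an identity of polynomials in two variables. -/
def IsAdditive {K : Type} [Field K] (g : K[X]) : Prop :=
  aeval (MvPolynomial.X 0 + MvPolynomial.X 1 : MvPolynomial (Fin 2) K) g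
    = aeval (MvPolynomial.X 0 : MvPolynomial (Fin 2) K) g
      + aeval (MvPolynomial.X 1 : MvPolynomial (Fin 2) K) g

/-- The set `C_f(a₁, a₂; b)` of parameters `λ` with `f_λ^m(a₁) = f_λ^n(a₂) = b` for some
`m, n ≥ 1`, where `f_λ(x) = f(x) + λ`. -/
def Collide {K : Type} [Field K] (f : K[X]) (a₁ a₂ b : K) : Set K :=
  {l | ∃ m n : ℕ, 1 ≤ m ∧ 1 ≤ n ∧ (fun x => f.eval x + l)^[m] a₁ = b ∧
    (fun x => f.eval x + l)^[n] a₂ = b}

section
variable {K : Type} [Field K] (p : ℕ) [hp : Fact p.Prime] [CharP K p]

noncomputable def F (K : Type) [Field K] (p : ℕ) : K[X] := (X ^ p - X) ^ (p + 1) + X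

lemma F_eval (x : K) : (F K p).eval x = (x ^ p - x) ^ (p + 1) + x := by simp [F]

lemma F_succ (x : K) : (F K p).eval (x + 1) = (F K p).eval x + 1 := by
  rw [F_eval, F_eval, add_pow_char, one_pow]
  have : x ^ p + 1 - (x + 1) = x ^ p - x := by ring
  rw [this]; ring

lemma iter_add (l : K) (k : ℕ) (x : K) :
    (fun x => (F K p).eval x + l)^[k] (x + 1) = (fun x => (F K p).eval x + l)^[k] x + 1 := by
  induction k generalizing x with
  | zero => simp
  | succ k ih =>
    rw [Function.iterate_succ_apply, Function.iterate_succ_apply, F_succ, ← ih]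
    congr 1; ring

lemma iter_sub (l : K) (k : ℕ) (x : K) :
    (fun x => (F K p).eval x + l)^[k] (x - 1) = (fun x => (F K p).eval x + l)^[k] x - 1 := by
  have := iter_add p l k (x - 1)
  rw [sub_add_cancel] at this
  rw [this]; ring

lemma iter_sub_nat (l : K) (k : ℕ) (x : K) (j : ℕ) :
    (fun x => (F K p).eval x + l)^[k] (x - j) = (fun x => (F K p).eval x + l)^[k] x - j := by
  induction j with
  | zero => simp
  | succ j ih =>
    have : x - ((j + 1 : ℕ) : K) = (x - j) - 1 := by push_cast; ring
    rw [this, iter_sub, ih]; push_cast; ring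

lemma iter_mul (l : K) (k : ℕ) (t : K) (h : (fun x => (F K p).eval x + l)^[k] t = t - 1)
    (j : ℕ) : (fun x => (F K p).eval x + l)^[k * j] t = t - j := by
  induction j with
  | zero => simp
  | succ j ih =>
    rw [Nat.mul_succ, add_comm, Function.iterate_add_apply, ih, iter_sub_nat, h]
    push_cast; ring

lemma natDegree_F : (F K p).natDegree = p * (p + 1) := by
  have h2 := hp.out.two_le
  have h1 : (X ^ p - X : K[X]).natDegree = p := by
    rw [natDegree_sub_eq_left_of_natDegree_lt] <;> simp; omega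
  have h3 : ((X ^ p - X : K[X]) ^ (p + 1)).natDegree = p * (p + 1) := by
    rw [natDegree_pow, h1]; ring
  unfold F
  rw [natDegree_add_eq_left_of_natDegree_lt] <;> rw [h3]
  simp; nlinarith

/-- the `k`-th iterate at `t` as a polynomial in the parameter -/
noncomputable def G (t : K) : ℕ → K[X]
  | 0 => C t
  | k + 1 => (F K p).comp (G t k) + X

lemma G_eval (t l : K) (k : ℕ) :
    (G p t k).eval l = (fun x => (F K p).eval x + l)^[k] t := by
  induction k with
  | zero => simp [G]
  | succ k ih => rw [Function.iterate_succ_apply', ← ih]; simp [G, eval_comp]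

lemma G_deg (t : K) (k : ℕ) : 1 ≤ (G p t (k + 1)).natDegree := by
  have h2 := hp.out.two_le
  induction k with
  | zero =>
    simp only [G, comp_C]
    rw [add_comm, natDegree_X_add_C]
  | succ k ih =>
    have h : ((F K p).comp (G p t (k + 1))).natDegree = p * (p + 1) * (G p t (k + 1)).natDegree := by
      rw [natDegree_comp, natDegree_F]
    have h' : 2 ≤ p * (p + 1) * (G p t (k + 1)).natDegree := by nlinarith [Nat.mul_le_mul h2 (le_refl (p+1))]
    rw [G, natDegree_add_eq_left_of_natDegree_lt] <;> rw [h]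
    · omega
    · simp; omega

lemma exists_param [IsAlgClosed K] (t : K) (k : ℕ) (hk : 1 ≤ k) :
    ∃ l : K, (fun x => (F K p).eval x + l)^[k] t = t - 1 := by
  obtain ⟨k, rfl⟩ : ∃ j, k = j + 1 := ⟨k - 1, by omega⟩
  have h1 := G_deg p t k
  have h2 : (G p t (k + 1) - C (t - 1)).degree ≠ 0 := by
    intro h
    have := natDegree_eq_zero_iff_degree_le_zero.2 h.le
    rw [natDegree_sub_C] at this
    omega
  obtain ⟨l, hl⟩ := IsAlgClosed.exists_root _ h2
  refine ⟨l, ?_⟩
  rw [← G_eval]
  simpa [sub_eq_zero] using hl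

lemma infinite_collide [IsAlgClosed K] (t : K) : (Collide (F K p) t (t + 1) t).Infinite := by
  have h2 := hp.out.two_le
  choose g hg using fun j : ℕ => exists_param p t (p ^ j) (Nat.one_le_pow _ _ (by omega))
  have key : ∀ i j, i < j → g i ≠ g j := by
    intro i j hij h
    have h1 := iter_mul p (g i) (p ^ i) t (hg i) (p ^ (j - i))
    rw [← pow_add, Nat.add_sub_cancel' hij.le, h, hg j] at h1
    obtain ⟨c, hc⟩ : ∃ c, j - i = c + 1 := ⟨j - i - 1, by omega⟩
    rw [hc, pow_succ, Nat.cast_mul, CharP.cast_eq_zero K p, mul_zero] at h1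
    have : (1 : K) = 0 := by linear_combination -h1
    exact one_ne_zero this
  have hinj : Function.Injective g := by
    intro i j h
    rcases lt_trichotomy i j with h1 | h1 | h1
    · exact absurd h (key _ _ h1)
    · exact h1
    · exact absurd h.symm (key _ _ h1)
  refine Set.infinite_of_injective_forall_mem hinj fun j => ?_
  refine ⟨p ^ j * p, p ^ j, Nat.mul_pos (by positivity) (by omega), Nat.one_le_pow _ _ (by omega),
    ?_, ?_⟩
  · rw [iter_mul p (g j) (p ^ j) t (hg j) p, CharP.cast_eq_zero K p, sub_zero]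
  · rw [iter_add, hg j]; ring

lemma exists_AS [IsAlgClosed K] (v : K) : ∃ y : K, y ^ p - y = v := by
  have h2 := hp.out.two_le
  have h1 : (X ^ p - X : K[X]).natDegree = p := by
    rw [natDegree_sub_eq_left_of_natDegree_lt] <;> simp; omega
  have h3 : (X ^ p - X - C v : K[X]).degree ≠ 0 := by
    intro h
    have := natDegree_eq_zero_iff_degree_le_zero.2 h.le
    rw [natDegree_sub_C] at this
    omega
  obtain ⟨l, hl⟩ := IsAlgClosed.exists_root _ h3
  exact ⟨l, by simpa [sub_eq_zero] using hl⟩

lemma not_additive [IsAlgClosed K] (c : K) : ¬ IsAdditive (F K p + C c) := by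
  intro h
  have h2 := hp.out.two_le
  have hev : ∀ x y : K, (F K p).eval (x + y) + c = (F K p).eval x + c + ((F K p).eval y + c) := by
    intro x y
    have := congrArg (MvPolynomial.aeval (R := K) ![x, y]) h
    rw [map_add (MvPolynomial.aeval (R := K) ![x, y]), ← aeval_algHom_apply,
      ← aeval_algHom_apply, ← aeval_algHom_apply] at this
    simpa [coe_aeval_eq_eval] using this
  have hc : c = 0 := by
    have := hev 0 0
    rw [add_zero, F_eval, zero_pow (by omega), sub_zero, zero_pow (by omega)] at this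
    linear_combination -this
  subst hc
  have hne : (X ^ p + X : K[X]) ≠ 0 := by
    intro h0
    have : (X ^ p + X : K[X]).natDegree = p := by
      rw [natDegree_add_eq_left_of_natDegree_lt] <;> simp; omega
    rw [h0] at this; simp at this; omega
  obtain ⟨v, hv⟩ := Polynomial.exists_eval_ne_zero_of_natDegree_lt_card _ hne
    (lt_of_lt_of_le (Cardinal.natCast_lt_aleph0) (Cardinal.aleph0_le_mk K))
  obtain ⟨x, hx⟩ := exists_AS p (1 : K)
  obtain ⟨y, hy⟩ := exists_AS p v
  have h3 := hev x y
  rw [F_eval, F_eval, F_eval, add_pow_char] at h3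
  have h4 : x ^ p + y ^ p - (x + y) = 1 + v := by linear_combination hx + hy
  rw [h4, hx, hy, pow_succ, pow_succ, pow_succ, add_pow_char] at h3
  apply hv
  simp only [eval_add, eval_pow, eval_X]
  simp only [one_pow] at h3
  linear_combination h3

lemma coeff_F (i : ℕ) : InFpBar p K ((F K p).coeff i) := by
  let _ := ZMod.algebra K p
  have : F K p = (F (ZMod p) p).map (algebraMap (ZMod p) K) := by simp [F]
  unfold InFpBar
  rw [this, coeff_map]
  exact isAlgebraic_algebraMap _

end

theorem result (p : ℕ) [Fact p.Prime] :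
    ∃ (L : Type) (_ : Field L) (_ : CharP L p) (f : (AlgebraicClosure L)[X]) (a₁ a₂ b : L),
      (∀ i, InFpBar p (AlgebraicClosure L) (f.coeff i)) ∧ 2 ≤ f.natDegree ∧
      (∀ c, ¬ IsAdditive (f + C c)) ∧
      ¬ InFpBar p (AlgebraicClosure L) (algebraMap L _ a₁) ∧
      (Collide f (algebraMap L _ a₁) (algebraMap L _ a₂) (algebraMap L _ b)).Infinite ∧
      f.eval (algebraMap L _ a₁) ≠ f.eval (algebraMap L _ a₂) := by
  have h2 := (Fact.out : p.Prime).two_le
  refine ⟨RatFunc (ZMod p), inferInstance, inferInstance, F _ p, RatFunc.X, RatFunc.X + 1,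
    RatFunc.X, coeff_F p, ?_, not_additive p, ?_, ?_, ?_⟩
  · rw [natDegree_F]; nlinarith
  · intro h
    unfold InFpBar at h
    have e : (ZMod.algebra (AlgebraicClosure (RatFunc (ZMod p))) p) =
        (inferInstance : Algebra (ZMod p) (AlgebraicClosure (RatFunc (ZMod p)))) :=
      Subsingleton.elim _ _
    rw [e] at h
    rw [isAlgebraic_algebraMap_iff (FaithfulSMul.algebraMap_injective _ _)] at h
    exact RatFunc.transcendental_X h
  · rw [map_add, map_one]; exact infinite_collide p _
  · rw [map_add, map_one, F_succ]; simp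

end Pool.Agent.Results.MP_a5410e_nt.Q1
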